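import Pool.Agent.Run7.h325.HRT.Stm

set_option autoImplicit false

/-!
# BIN, part (1), for the refutation of HRT

The binomial weights `b A (l N) (l i)` decrease in steps of two. The proof avoids Stirling: with
`i + j = N` the largest term of `(i + j) ^ (l N)` is the one with exponents `l i`, `l j`, so
Vandermonde gives `C((l+1)N, (l+1)i) i ^ ((l+1) i) j ^ ((l+1) j) ≤ C(lN, li) i ^ (l i) j ^ (l j) N ^ N`.
-/

namespace Pool.Agent.Run7.h431.HRT.BIN1

open Pool.Agent.Run7.h325.HRT

/-- one step of the mode property, to the left of the mode -/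
theorem stepL (n i j k : ℕ) (hk : k < n) (h : (k + 1) * j ≤ (n - k) * i) :
    n.choose k * (i ^ k * j ^ (n - k)) ≤ n.choose (k + 1) * (i ^ (k + 1) * j ^ (n - (k + 1))) := by
  have h1 : n.choose (k + 1) * (k + 1) = n.choose k * (n - k) := Nat.choose_succ_right_eq n k
  have e1 : n - k = (n - (k + 1)) + 1 := by omega
  have key : (k + 1) * (n.choose k * (i ^ k * j ^ (n - k))) ≤
      (k + 1) * (n.choose (k + 1) * (i ^ (k + 1) * j ^ (n - (k + 1)))) := by
    calc (k + 1) * (n.choose k * (i ^ k * j ^ (n - k)))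
        = n.choose k * (i ^ k * j ^ (n - (k + 1))) * ((k + 1) * j) := by
          rw [show j ^ (n - k) = j ^ (n - (k + 1)) * j by rw [e1, pow_succ]]; ring
      _ ≤ n.choose k * (i ^ k * j ^ (n - (k + 1))) * ((n - k) * i) := Nat.mul_le_mul_left _ h
      _ = (n.choose k * (n - k)) * (i ^ (k + 1) * j ^ (n - (k + 1))) := by rw [pow_succ]; ring
      _ = (k + 1) * (n.choose (k + 1) * (i ^ (k + 1) * j ^ (n - (k + 1)))) := by rw [← h1]; ring
  exact Nat.le_of_mul_le_mul_left key (Nat.succ_pos k)

/-- one step of the mode property, to the right of the mode -/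
theorem stepR (n i j k : ℕ) (hk : k < n) (h : (n - k) * i ≤ (k + 1) * j) :
    n.choose (k + 1) * (i ^ (k + 1) * j ^ (n - (k + 1))) ≤ n.choose k * (i ^ k * j ^ (n - k)) := by
  have h1 : n.choose (k + 1) * (k + 1) = n.choose k * (n - k) := Nat.choose_succ_right_eq n k
  have e1 : n - k = (n - (k + 1)) + 1 := by omega
  have key : (k + 1) * (n.choose (k + 1) * (i ^ (k + 1) * j ^ (n - (k + 1)))) ≤
      (k + 1) * (n.choose k * (i ^ k * j ^ (n - k))) := by
    calc (k + 1) * (n.choose (k + 1) * (i ^ (k + 1) * j ^ (n - (k + 1))))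
        = (n.choose (k + 1) * (k + 1)) * (i ^ (k + 1) * j ^ (n - (k + 1))) := by ring
      _ = (n.choose k * (n - k)) * (i ^ (k + 1) * j ^ (n - (k + 1))) := by rw [h1]
      _ = n.choose k * (i ^ k * j ^ (n - (k + 1))) * ((n - k) * i) := by rw [pow_succ]; ring
      _ ≤ n.choose k * (i ^ k * j ^ (n - (k + 1))) * ((k + 1) * j) := Nat.mul_le_mul_left _ h
      _ = (k + 1) * (n.choose k * (i ^ k * j ^ (n - k))) := by
          rw [show j ^ (n - k) = j ^ (n - (k + 1)) * j by rw [e1, pow_succ]]; ring
  exact Nat.le_of_mul_le_mul_left key (Nat.succ_pos k)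

/-- the mode of the binomial expansion of `(i + j) ^ (l (i + j))` is at `l i` -/
theorem mode (l i j k : ℕ) (hk : k ≤ l * (i + j)) :
    (l * (i + j)).choose k * (i ^ k * j ^ (l * (i + j) - k)) ≤
      (l * (i + j)).choose (l * i) * (i ^ (l * i) * j ^ (l * (i + j) - l * i)) := by
  set n := l * (i + j) with hn
  have hn' : n = l * i + l * j := by rw [hn]; ring
  rcases le_total k (l * i) with h | h
  · -- left side, decreasing induction
    obtain ⟨d, hd⟩ := Nat.exists_eq_add_of_le h
    induction d generalizing k with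
    | zero => rw [hd]; simp
    | succ d ih =>
      have hk1 : k < n := by omega
      have st := stepL n i j k hk1 (by
        have e2 : n - k = l * j + (l * i - k) := by omega
        rw [e2]
        have e3 : l * i - k = d + 1 := by omega
        rw [e3]
        have : (k + 1) * j ≤ l * i * j := Nat.mul_le_mul_right _ (by omega)
        nlinarith)
      exact st.trans (ih (k + 1) (by omega) (by omega) (by omega))
  · obtain ⟨d, hd⟩ := Nat.exists_eq_add_of_le h
    induction d generalizing k with
    | zero => rw [hd]; simp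
    | succ d ih =>
      obtain ⟨k', rfl⟩ : ∃ k', k = k' + 1 := ⟨k - 1, by omega⟩
      have hk1 : k' < n := by omega
      have st := stepR n i j k' hk1 (by
        have e2 : n - k' ≤ l * j := by omega
        calc (n - k') * i ≤ l * j * i := Nat.mul_le_mul_right _ e2
          _ = l * i * j := by ring
          _ ≤ (k' + 1) * j := Nat.mul_le_mul_right _ (by omega))
      exact st.trans (ih k' (by omega) (by omega) (by omega))

/-- one step in `l` -/
theorem step (l i j : ℕ) :
    ((l + 1) * (i + j)).choose ((l + 1) * i) * (i ^ i * j ^ j) ≤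
      (l * (i + j)).choose (l * i) * (i + j) ^ (i + j) ∨ i = 0 ∨ j = 0 := by
  rcases Nat.eq_zero_or_pos i with hi | hi
  · right; left; exact hi
  rcases Nat.eq_zero_or_pos j with hj | hj
  · right; right; exact hj
  left
  set N := i + j with hN
  set B := (l * N).choose (l * i) * (i ^ (l * i) * j ^ (l * N - l * i)) with hB
  have hlN : l * N - l * i = l * j := by rw [hN, mul_add]; omega
  have e : (l + 1) * N = l * N + N := by ring
  have hmain : ((l + 1) * N).choose ((l + 1) * i) * (i ^ ((l + 1) * i) * j ^ ((l + 1) * j)) ≤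
      B * N ^ N := by
    rw [e, Nat.add_choose_eq, Finset.sum_mul]
    calc ∑ p ∈ Finset.HasAntidiagonal.antidiagonal ((l + 1) * i), (l * N).choose p.1 * N.choose p.2 *
          (i ^ ((l + 1) * i) * j ^ ((l + 1) * j))
        ≤ ∑ p ∈ Finset.HasAntidiagonal.antidiagonal ((l + 1) * i),
            B * (N.choose p.2 * (i ^ p.2 * j ^ (N - p.2))) := by
          refine Finset.sum_le_sum fun p hp => ?_
          have hp' : p.1 + p.2 = (l + 1) * i := Finset.HasAntidiagonal.mem_antidiagonal.mp hp
          rcases le_or_gt p.1 (l * N) with h1 | h1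
          · rcases le_or_gt p.2 N with h2 | h2
            · have hm := mode l i j p.1 h1
              have ei : i ^ ((l + 1) * i) = i ^ p.1 * i ^ p.2 := by rw [← hp', pow_add]
              have ej : j ^ ((l + 1) * j) = j ^ (l * N - p.1) * j ^ (N - p.2) := by
                rw [← pow_add]; congr 1
                have : (l + 1) * N = (l + 1) * i + (l + 1) * j := by rw [hN]; ring
                omega
              calc (l * N).choose p.1 * N.choose p.2 * (i ^ ((l + 1) * i) * j ^ ((l + 1) * j))
                  = ((l * N).choose p.1 * (i ^ p.1 * j ^ (l * N - p.1))) *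
                    (N.choose p.2 * (i ^ p.2 * j ^ (N - p.2))) := by rw [ei, ej]; ring
                _ ≤ B * (N.choose p.2 * (i ^ p.2 * j ^ (N - p.2))) :=
                    Nat.mul_le_mul_right _ hm
            · rw [Nat.choose_eq_zero_of_lt h2]; simp
          · rw [Nat.choose_eq_zero_of_lt h1]; simp
      _ ≤ B * N ^ N := by
          rw [← Finset.mul_sum]
          refine Nat.mul_le_mul_left _ ?_
          have hb : N ^ N = ∑ m ∈ Finset.range (N + 1), N.choose m * (i ^ m * j ^ (N - m)) := by
            conv_lhs => rw [hN]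
            rw [add_pow]
            refine Finset.sum_congr rfl fun m _ => ?_
            simp only [Nat.cast_id]
            ring
          rw [hb]
          have hz : ∀ p ∈ Finset.HasAntidiagonal.antidiagonal ((l + 1) * i), N.choose p.2 * (i ^ p.2 * j ^ (N - p.2))
              = (fun m => N.choose m * (i ^ m * j ^ (N - m))) p.2 := fun p _ => rfl
          rw [Finset.sum_congr rfl hz]
          have hinj : Set.InjOn (fun p : ℕ × ℕ => p.2)
              (Finset.HasAntidiagonal.antidiagonal ((l + 1) * i) : Set (ℕ × ℕ)) := by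
            intro p hp r hr hpr
            have hp1 := Finset.HasAntidiagonal.mem_antidiagonal.mp (Finset.mem_coe.mp hp)
            have hr1 := Finset.HasAntidiagonal.mem_antidiagonal.mp (Finset.mem_coe.mp hr)
            simp only at hpr
            exact Prod.ext (by omega) hpr
          rw [← Finset.sum_image (g := fun p : ℕ × ℕ => p.2)
            (f := fun m => N.choose m * (i ^ m * j ^ (N - m))) hinj]
          refine le_trans (b := ∑ m ∈ (Finset.image (fun p : ℕ × ℕ => p.2)
            (Finset.HasAntidiagonal.antidiagonal ((l + 1) * i))) ∪ Finset.range (N + 1),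
              N.choose m * (i ^ m * j ^ (N - m)))
            (Finset.sum_le_sum_of_subset Finset.subset_union_left) (le_of_eq ?_)
          refine (Finset.sum_subset Finset.subset_union_right fun m _ hm => ?_).symm
          rw [Nat.choose_eq_zero_of_lt (by simpa [Nat.lt_succ_iff] using hm)]
          simp
  have hpos : 0 < i ^ (l * i) * j ^ (l * j) := by positivity
  refine Nat.le_of_mul_le_mul_left ?_ hpos
  calc i ^ (l * i) * j ^ (l * j) * (((l + 1) * N).choose ((l + 1) * i) * (i ^ i * j ^ j))
      = ((l + 1) * N).choose ((l + 1) * i) * (i ^ ((l + 1) * i) * j ^ ((l + 1) * j)) := by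
        rw [show (l + 1) * i = l * i + i by ring, show (l + 1) * j = l * j + j by ring,
          pow_add, pow_add]; ring
    _ ≤ B * N ^ N := hmain
    _ = i ^ (l * i) * j ^ (l * j) * ((l * N).choose (l * i) * N ^ N) := by
        rw [hB, hlN]; ring

/-- `(A N) ^ i ((1 - A) N) ^ j ≤ i ^ i j ^ j` for `i + j = N`. -/
theorem gam (A : ℝ) (hA : 0 < A) (hA1 : A < 1) (i j : ℕ) (hi : 0 < i) (hj : 0 < j) :
    ((i + j : ℕ) : ℝ) ^ (i + j) * (A ^ i * (1 - A) ^ j) ≤ (i : ℝ) ^ i * (j : ℝ) ^ j := by
  have hi' : (0 : ℝ) < i := by exact_mod_cast hi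
  have hj' : (0 : ℝ) < j := by exact_mod_cast hj
  set N : ℝ := ((i + j : ℕ) : ℝ) with hN
  have hN' : N = i + j := by rw [hN]; push_cast; ring
  have hNpos : 0 < N := by rw [hN']; linarith
  have h1 : (A * N / i) ^ i ≤ Real.exp (A * N - i) := by
    have : A * N / i ≤ Real.exp (A * N / i - 1) := by
      have := Real.add_one_le_exp (A * N / i - 1); linarith
    calc (A * N / i) ^ i ≤ (Real.exp (A * N / i - 1)) ^ i :=
          pow_le_pow_left₀ (by positivity) this i
      _ = Real.exp (A * N - i) := by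
          rw [← Real.exp_nat_mul]; congr 1; field_simp
  have h2 : ((1 - A) * N / j) ^ j ≤ Real.exp ((1 - A) * N - j) := by
    have : (1 - A) * N / j ≤ Real.exp ((1 - A) * N / j - 1) := by
      have := Real.add_one_le_exp ((1 - A) * N / j - 1); linarith
    have h0 : 0 ≤ (1 - A) * N / j := by
      have : 0 ≤ 1 - A := by linarith
      positivity
    calc ((1 - A) * N / j) ^ j ≤ (Real.exp ((1 - A) * N / j - 1)) ^ j :=
          pow_le_pow_left₀ h0 this j
      _ = Real.exp ((1 - A) * N - j) := by
          rw [← Real.exp_nat_mul]; congr 1; field_simp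
  have h3 : (A * N / i) ^ i * ((1 - A) * N / j) ^ j ≤ 1 := by
    calc (A * N / i) ^ i * ((1 - A) * N / j) ^ j
        ≤ Real.exp (A * N - i) * Real.exp ((1 - A) * N - j) := by
          refine mul_le_mul h1 h2 ?_ (Real.exp_pos _).le
          have : 0 ≤ 1 - A := by linarith
          positivity
      _ = 1 := by rw [← Real.exp_add, hN']; simp; ring
  have h4 : N ^ (i + j) * (A ^ i * (1 - A) ^ j) =
      ((A * N / i) ^ i * ((1 - A) * N / j) ^ j) * ((i : ℝ) ^ i * (j : ℝ) ^ j) := by
    rw [div_pow, div_pow, mul_pow, mul_pow, pow_add]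
    field_simp
  rw [h4]
  calc _ ≤ 1 * ((i : ℝ) ^ i * (j : ℝ) ^ j) :=
        mul_le_mul_of_nonneg_right h3 (by positivity)
    _ = _ := one_mul _

/-- the weights decrease in `l` -/
theorem bstep (A : ℝ) (hA : 0 < A) (hA1 : A < 1) (i j l : ℕ) (hi : 0 < i) (hj : 0 < j) :
    b A ((l + 1) * (i + j)) ((l + 1) * i) ≤ b A (l * (i + j)) (l * i) := by
  have hi' : (0 : ℝ) < i := by exact_mod_cast hi
  have hj' : (0 : ℝ) < j := by exact_mod_cast hj
  have h1A : 0 < 1 - A := by linarith
  have hs : ((((l + 1) * (i + j)).choose ((l + 1) * i) : ℕ) : ℝ) * ((i : ℝ) ^ i * (j : ℝ) ^ j) ≤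
      ((l * (i + j)).choose (l * i) : ℕ) * ((i + j : ℕ) : ℝ) ^ (i + j) := by
    rcases step l i j with h | h | h
    · exact_mod_cast h
    · omega
    · omega
  have hg := gam A hA hA1 i j hi hj
  have e1 : (l + 1) * (i + j) - (l + 1) * i = l * j + j := by
    rw [show (l + 1) * (i + j) = (l + 1) * i + (l * j + j) by ring]; omega
  have e2 : l * (i + j) - l * i = l * j := by
    rw [show l * (i + j) = l * i + l * j by ring]; omega
  unfold b
  rw [e1, e2, show (l + 1) * i = l * i + i by ring, pow_add, pow_add]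
  rw [show (l + 1) * i = l * i + i by ring] at hs
  set C1 : ℝ := ((((l + 1) * (i + j)).choose (l * i + i) : ℕ) : ℝ) with hC1
  set C0 : ℝ := (((l * (i + j)).choose (l * i) : ℕ) : ℝ) with hC0
  set P : ℝ := (i : ℝ) ^ i * (j : ℝ) ^ j with hP
  have hPpos : 0 < P := by positivity
  have hC0' : 0 ≤ C0 := by rw [hC0]; positivity
  have hc : C1 * (A ^ i * (1 - A) ^ j) ≤ C0 := by
    have : P * (C1 * (A ^ i * (1 - A) ^ j)) ≤ P * C0 := by
      calc P * (C1 * (A ^ i * (1 - A) ^ j)) = (C1 * P) * (A ^ i * (1 - A) ^ j) := by ring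
        _ ≤ (C0 * ((i + j : ℕ) : ℝ) ^ (i + j)) * (A ^ i * (1 - A) ^ j) :=
            mul_le_mul_of_nonneg_right hs (by positivity)
        _ = C0 * (((i + j : ℕ) : ℝ) ^ (i + j) * (A ^ i * (1 - A) ^ j)) := by ring
        _ ≤ C0 * P := mul_le_mul_of_nonneg_left hg hC0'
        _ = P * C0 := by ring
    exact le_of_mul_le_mul_left this hPpos
  calc C1 * (A ^ (l * i) * A ^ i) * ((1 - A) ^ (l * j) * (1 - A) ^ j)
      = (C1 * (A ^ i * (1 - A) ^ j)) * (A ^ (l * i) * (1 - A) ^ (l * j)) := by ring
    _ ≤ C0 * (A ^ (l * i) * (1 - A) ^ (l * j)) :=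
        mul_le_mul_of_nonneg_right hc (by positivity)
    _ = C0 * A ^ (l * i) * (1 - A) ^ (l * j) := by ring

/-- **BIN, part (1)**. -/
theorem t_BIN1 (hA : S_APROP) : ∀ m q : ℕ, 1 ≤ m → 1 ≤ q → ∀ l : ℕ, 1 ≤ l →
    b (Am m) ((l + 2) * Nq m q) ((l + 2) * iq m q) ≤
      b (Am m) (l * Nq m q) (l * iq m q) := by
  intro m q hm hq l _
  obtain ⟨hA0, hA1, hq'⟩ := hA m hm
  obtain ⟨_, _, _, h4, h1000, _, _⟩ := hq' q
  have hi : 1000 ≤ iq m q := h1000 hq
  obtain ⟨j, hj⟩ : ∃ j, Nq m q = iq m q + j := ⟨Nq m q - iq m q, by omega⟩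
  have hjpos : 0 < j := by omega
  rw [hj]
  have s1 := bstep (Am m) hA0 (by linarith) (iq m q) j l (by omega) hjpos
  have s2 := bstep (Am m) hA0 (by linarith) (iq m q) j (l + 1) (by omega) hjpos
  exact s2.trans s1

end Pool.Agent.Run7.h431.HRT.BIN1
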